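import Mathlib
import Pool.Agent.R580.ChangPairs

set_option autoImplicit false

/-!
# The negated form at `ω₂` is a closed version of Chang's conjecture
-/

universe u

namespace Pool.Agent.Results.MP_38c2b3_lc.ClosedChang

open Cardinal Ordinal Set Pool.Agent.R580.ChangPairs

/-- `A` has order type `ω₁` and is closed in its supremum. -/
def IsClosedCopy (A : Set Ordinal.{u}) : Prop :=
  (∀ B ⊆ A, B.Nonempty → (∃ a ∈ A, ∀ b ∈ B, b ≤ a) → sSup B ∈ A) ∧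
    Nonempty (A ≃o Iio (ω_ 1 : Ordinal.{u}))

theorem result :
    ((¬ ∃ c : Ordinal.{u} → Ordinal.{u} → Ordinal.{u},
        (∀ α β, α < β → β < ω_ 2 → c α β < ω_ 1) ∧
        ∀ A ⊆ Iio (ω_ 2), IsClosedCopy A → ¬ (Colours c A).Countable) ↔
      ∀ f : ℕ → List Ordinal.{u} → Ordinal.{u}, ClosedUnder f (Iio (ω_ 2)) →
        ∃ N ⊆ Iio (ω_ 2), ClosedUnder f N ∧ (N ∩ Iio (ω_ 1)).Countable ∧
          ∃ A ⊆ N, IsClosedCopy A) ∧
    ((¬ ∃ c : Ordinal.{u} → Ordinal.{u} → Ordinal.{u},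
        (∀ α β, α < β → β < ω_ 2 → c α β < ω_ 1) ∧
        ∀ A ⊆ Iio (ω_ 2), ¬ A.Countable → ¬ (Colours c A).Countable) ↔
      ∀ f : ℕ → List Ordinal.{u} → Ordinal.{u}, ClosedUnder f (Iio (ω_ 2)) →
        ∃ N ⊆ Iio (ω_ 2), ClosedUnder f N ∧ (N ∩ Iio (ω_ 1)).Countable ∧ ¬ N.Countable) := by
  have hunc : ∀ A : Set Ordinal.{u}, IsClosedCopy A → ¬ A.Countable := by
    rintro A ⟨_, ⟨e⟩⟩ hA
    have h1 : Countable A := hA.to_subtype
    have h2 : Countable (Iio (ω_ 1 : Ordinal.{u})) := e.toEquiv.symm.injective.countable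
    have h3 : #(Iio (ω_ 1 : Ordinal.{u})) ≤ ℵ₀ := mk_le_aleph0
    rw [Cardinal.mk_Iio_ordinal, card_omega, show ℵ₀ = Cardinal.lift.{u + 1, u} ℵ₀ by simp,
      Cardinal.lift_le] at h3
    exact absurd aleph0_lt_aleph_one (not_lt.2 h3)
  constructor
  · have h := family.{u} {A | A ⊆ Iio (ω_ 2) ∧ IsClosedCopy A} fun A hA => ⟨hA.1, hunc A hA.2⟩
    constructor
    · intro h1 f hf
      obtain ⟨N, h2, h3, h4, A, hA, hAN⟩ := h.1 (by
        intro c hc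
        by_contra hcon
        refine h1 ⟨c, hc, fun A hA hA' hcol => hcon ⟨A, ⟨hA, hA'⟩, hcol⟩⟩) f hf
      exact ⟨N, h2, h3, h4, A, hAN, hA.2⟩
    · rintro h1 ⟨c, hc, h2⟩
      obtain ⟨A, hA, hcol⟩ := h.2 (by
        intro f hf
        obtain ⟨N, h3, h4, h5, A, hAN, hA⟩ := h1 f hf
        exact ⟨N, h3, h4, h5, A, ⟨hAN.trans h3, hA⟩, hAN⟩) c hc
      exact h2 A hA.1 hA.2 hcol
  · have h := family.{u} {A | A ⊆ Iio (ω_ 2) ∧ ¬ A.Countable} fun A hA => hA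
    constructor
    · intro h1 f hf
      obtain ⟨N, h2, h3, h4, A, hA, hAN⟩ := h.1 (by
        intro c hc
        by_contra hcon
        refine h1 ⟨c, hc, fun A hA hA' hcol => hcon ⟨A, ⟨hA, hA'⟩, hcol⟩⟩) f hf
      exact ⟨N, h2, h3, h4, fun h5 => hA.2 (h5.mono hAN)⟩
    · rintro h1 ⟨c, hc, h2⟩
      obtain ⟨A, hA, hcol⟩ := h.2 (by
        intro f hf
        obtain ⟨N, h3, h4, h5, h6⟩ := h1 f hf
        exact ⟨N, h3, h4, h5, N, ⟨h3, h6⟩, Subset.rfl⟩) c hc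
      exact h2 A hA.1 hA.2 hcol

end Pool.Agent.Results.MP_38c2b3_lc.ClosedChang
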