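import Mathlib
import Pool.Agent.R580.LevyFinal
import Pool.Agent.R580.ClosedColour
import Pool.Agent.R580.ManyColours

set_option autoImplicit false

/-!
# The answer yes, for all cardinals, in a forcing extension
-/

universe u

namespace Pool.Agent.Results.MP_38c2b3_lc.ForcedForAll

open Cardinal Pool.Agent.Helper669.Forcing Pool.Agent.R580.CCDefs Pool.Agent.R580.ManyColours

theorem result :
    (∀ κ : Cardinal.{u}, ℵ₀ < κ → κ.IsRegular → (∀ μ < κ, Order.succ μ < κ) →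
      ∃ (P : Type u) (_ : Preorder P), Nonempty P ∧ ∀ p : P,
        p ∈ IsOmegaOne P κ.ord.ToType ∧
        ∀ (K : Type u) [LinearOrder K] [WellFoundedLT K],
          p ∈ ManyColours P κ.ord.ToType K) ∧
    (∃ κ : Cardinal.{u + 1}, ℵ₀ < κ ∧ κ.IsRegular ∧ ∀ μ < κ, Order.succ μ < κ) ∧
    ∀ κ : Cardinal.{u}, ∃ (P : Type u) (_ : Preorder P), Nonempty P ∧ ∀ p : P,
      p ∈ IsOmegaOne P (ℵ₁ : Cardinal.{u}).ord.ToType ∧
      ((2 : Cardinal.{u}) ^ (ℵ₀ : Cardinal.{u}) = ℵ₁ → p ∈ CardinalsPreserved.{u, u} P) ∧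
      ∀ (K : Type u) [LinearOrder K] [WellFoundedLT K], #K ≤ κ →
        p ∈ ManyColours P (ℵ₁ : Cardinal.{u}).ord.ToType K := by
  classical
  refine ⟨fun κ h0 hκ hlim => ⟨Pool.Agent.R580.LevyCollapse.Levy κ, inferInstance,
    ⟨⟨fun _ _ => none, by simp, by simp⟩⟩, fun p =>
    ⟨Pool.Agent.R580.LevyCollapse.isOmegaOne hκ h0 p, fun K _ _ =>
      manyColours (Pool.Agent.R580.LevyCollapse.isOmegaOne hκ h0 p)
        (Pool.Agent.R580.LevyFinal.surjective hκ h0 hlim p)⟩⟩, ?_, fun κ =>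
    ⟨Pool.Agent.W905.SM.AddForcing ℵ₁ (κ.out × κ.out), inferInstance,
      ⟨⟨fun _ _ => none, ?_⟩⟩, fun p => ⟨Pool.Agent.R580.ClosedColour.isOmegaOne p, fun hch =>
      Pool.Agent.W905.SM.cardinalsPreserved Pool.Agent.R580.ClosedColour.reg1 ?_ p,
      fun K _ _ hK => ?_⟩⟩⟩
  · have h : IsInaccessible Cardinal.univ.{u, u + 1} := IsInaccessible.univ
    exact ⟨_, h.aleph0_lt, h.isRegular, fun μ hμ => h.isSuccLimit.succ_lt hμ⟩
  · rw [Pool.Agent.R580.ClosedColour.cnt]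
    simp
  · intro μ hμ
    rw [Cardinal.lt_aleph_one_iff] at hμ
    rw [← hch]
    exact Cardinal.power_le_power_left two_ne_zero hμ
  · rw [← Cardinal.mk_out κ] at hK
    obtain ⟨f⟩ := hK
    exact manyColours (Pool.Agent.R580.ClosedColour.isOmegaOne p)
      (Pool.Agent.R580.ClosedColour.surjective (i := Prod.map f f)
        (f.injective.prodMap f.injective) p)

end Pool.Agent.Results.MP_38c2b3_lc.ForcedForAll
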